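import Pool.Agent.U856.BM.Stm1

/-!
# Project BM (helper856), package UN (helper88): unfolding
-/

set_option autoImplicit false

open Set Filter Topology ComplexConjugate

namespace Pool.Agent.U88.BM.UN

open Pool.Agent.U856.BM

/-- the orientation of the folding on the cell `k` -/
noncomputable def sg (k : ℤ) : ℝ := if Odd k then 1 else -1

lemma fo_cell {a x : ℝ} {k : ℤ} (ha : 0 < a) (h1 : k * a ≤ x) (h2 : x ≤ (k + 1) * a) :
    fo a x = if Odd k then x - (k + 1) * a else k * a - x := by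
  unfold fo
  rw [round_eq]
  split_ifs with hk
  · obtain ⟨j, rfl⟩ := hk
    have h3 : ⌊x / (2 * a) + 1 / 2⌋ = j + 1 := by
      rw [Int.floor_eq_iff]
      push_cast at h1 h2 ⊢
      constructor
      · have : (j : ℝ) + 1 / 2 ≤ x / (2 * a) := by
          rw [le_div_iff₀ (by positivity)]; linarith
        linarith
      · have : x / (2 * a) ≤ (j : ℝ) + 1 := by
          rw [div_le_iff₀ (by positivity)]; linarith
        linarith
    rw [h3]
    push_cast at h1 h2 ⊢
    rw [abs_of_nonpos (by linarith)]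
    ring
  · obtain ⟨j, hj⟩ := Int.not_odd_iff_even.1 hk
    have hj' : k = 2 * j := by omega
    subst hj'
    push_cast at h1 h2 ⊢
    rcases lt_or_eq_of_le h2 with h4 | h4
    · have h3 : ⌊x / (2 * a) + 1 / 2⌋ = j := by
        rw [Int.floor_eq_iff]
        constructor
        · have : (j : ℝ) ≤ x / (2 * a) := by
            rw [le_div_iff₀ (by positivity)]; linarith
          linarith
        · have : x / (2 * a) < (j : ℝ) + 1 / 2 := by
            rw [div_lt_iff₀ (by positivity)]; linarith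
          linarith
      rw [h3, abs_of_nonneg (by linarith)]
      ring
    · have h3 : ⌊x / (2 * a) + 1 / 2⌋ = j + 1 := by
        rw [Int.floor_eq_iff, h4]
        push_cast
        have : (2 * (j : ℝ) + 1) * a / (2 * a) = j + 1 / 2 := by field_simp
        rw [this]
        constructor <;> linarith
      rw [h3, h4]
      push_cast
      rw [abs_of_nonpos (by linarith)]
      ring

lemma fo_lin {a x x' : ℝ} {k : ℤ} (ha : 0 < a) (h1 : k * a ≤ x) (h2 : x ≤ (k + 1) * a)
    (h1' : k * a ≤ x') (h2' : x' ≤ (k + 1) * a) : fo a x' = fo a x + sg k * (x' - x) := by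
  rw [fo_cell ha h1 h2, fo_cell ha h1' h2', sg]
  split_ifs <;> ring

lemma fo_int {a x : ℝ} {k : ℤ} (ha : 0 < a) (h1 : k * a < x) (h2 : x < (k + 1) * a) :
    -a < fo a x ∧ fo a x < 0 := by
  rw [fo_cell ha h1.le h2.le]
  split_ifs <;> constructor <;> linarith

lemma fo_grid {a : ℝ} (m : ℤ) (ha : 0 < a) : fo a (m * a) = if Odd m then -a else 0 := by
  rw [fo_cell (k := m) ha le_rfl (by linarith)]
  split_ifs <;> ring

lemma floor_cell {a x : ℝ} {k : ℤ} (ha : 0 < a) (h1 : k * a < x) (h2 : x < (k + 1) * a) :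
    ⌊x / a⌋ = k := by
  rw [Int.floor_eq_iff]
  constructor
  · rw [le_div_iff₀ ha]; exact h1.le
  · rw [div_lt_iff₀ ha]; exact h2

/-- one coordinate near a time -/
lemma local_coord {a x0 c s : ℝ} (ha : 0 < a) (hc : c ≠ 0) : ∃ δ : ℝ, 0 < δ ∧ ∃ k1 k2 : ℤ,
    (∀ r, s - δ < r → r < s → k1 * a < x0 + r * c ∧ x0 + r * c < (k1 + 1) * a) ∧
    (∀ r, s < r → r < s + δ → k2 * a < x0 + r * c ∧ x0 + r * c < (k2 + 1) * a) ∧
    ((k1 = k2 ∧ k1 * a < x0 + s * c ∧ x0 + s * c < (k1 + 1) * a) ∨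
      ∃ m : ℤ, x0 + s * c = m * a ∧ ((k1 = m - 1 ∧ k2 = m) ∨ (k1 = m ∧ k2 = m - 1))) := by
  have hc' : 0 < |c| := abs_pos.2 hc
  by_cases h : ∃ m : ℤ, x0 + s * c = m * a
  · obtain ⟨m, hm⟩ := h
    refine ⟨a / |c|, by positivity, ?_⟩
    rcases lt_or_gt_of_ne hc with hneg | hpos
    · rw [abs_of_neg hneg]
      have key : ∀ r, x0 + r * c = m * a + (r - s) * c := fun r => by rw [← hm]; ring
      refine ⟨m, m - 1, fun r h1 h2 => ?_, fun r h1 h2 => ?_, Or.inr ⟨m, hm, Or.inr ⟨rfl, rfl⟩⟩⟩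
      · rw [key]
        have h3 : s - r < a / (-c) := by linarith
        rw [lt_div_iff₀ (by linarith)] at h3
        constructor <;> nlinarith
      · rw [key]
        have h3 : r - s < a / (-c) := by linarith
        rw [lt_div_iff₀ (by linarith)] at h3
        push_cast
        constructor <;> nlinarith
    · rw [abs_of_pos hpos]
      have key : ∀ r, x0 + r * c = m * a + (r - s) * c := fun r => by rw [← hm]; ring
      refine ⟨m - 1, m, fun r h1 h2 => ?_, fun r h1 h2 => ?_, Or.inr ⟨m, hm, Or.inl ⟨rfl, rfl⟩⟩⟩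
      · rw [key]
        have h3 : s - r < a / c := by linarith
        rw [lt_div_iff₀ (by linarith)] at h3
        push_cast
        constructor <;> nlinarith
      · rw [key]
        have h3 : r - s < a / c := by linarith
        rw [lt_div_iff₀ (by linarith)] at h3
        constructor <;> nlinarith
  · push Not at h
    set k : ℤ := ⌊(x0 + s * c) / a⌋ with hk
    have h1 : k * a ≤ x0 + s * c := by
      have := Int.floor_le ((x0 + s * c) / a)
      rw [le_div_iff₀ ha] at this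
      exact this
    have h2 : x0 + s * c < (k + 1) * a := by
      have := Int.lt_floor_add_one ((x0 + s * c) / a)
      rw [div_lt_iff₀ ha] at this
      exact this
    have h1' : k * a < x0 + s * c := lt_of_le_of_ne h1 (Ne.symm (h k))
    set η : ℝ := min (x0 + s * c - k * a) ((k + 1) * a - (x0 + s * c)) with hη
    have hη0 : 0 < η := lt_min (by linarith) (by linarith)
    have hη1 : η ≤ x0 + s * c - k * a := min_le_left _ _
    have hη2 : η ≤ (k + 1) * a - (x0 + s * c) := min_le_right _ _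
    have key : ∀ r, |r - s| < η / |c| → k * a < x0 + r * c ∧ x0 + r * c < (k + 1) * a := by
      intro r hr
      rw [lt_div_iff₀ hc', ← abs_mul] at hr
      have h3 := abs_lt.1 hr
      constructor <;> nlinarith [h3.1, h3.2]
    refine ⟨η / |c|, by positivity, k, k, fun r h3 h4 => key r ?_, fun r h3 h4 => key r ?_,
      Or.inl ⟨rfl, h1', h2⟩⟩
    · rw [abs_lt]; constructor <;> linarith
    · rw [abs_lt]; constructor <;> linarith

/-- the folded point -/
noncomputable def Fo (a b : ℝ) (w : ℂ) : ℂ := ⟨fo a w.re, fo b w.im⟩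

/-- the direction in the cell `(k, l)` -/
noncomputable def dv (g : ℂ) (k l : ℤ) : ℂ := ⟨sg k * g.re, sg l * g.im⟩

lemma re_line (z g : ℂ) (s : ℝ) : (z + s • g).re = z.re + s * g.re := by simp
lemma im_line (z g : ℂ) (s : ℝ) : (z + s • g).im = z.im + s * g.im := by simp

/-- the folding is linear in the closed cells -/
lemma Fo_lin {a b : ℝ} (ha : 0 < a) (hb : 0 < b) {z g : ℂ} {k l : ℤ} {s s' : ℝ}
    (h1 : k * a ≤ z.re + s * g.re) (h2 : z.re + s * g.re ≤ (k + 1) * a)
    (h3 : l * b ≤ z.im + s * g.im) (h4 : z.im + s * g.im ≤ (l + 1) * b)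
    (h1' : k * a ≤ z.re + s' * g.re) (h2' : z.re + s' * g.re ≤ (k + 1) * a)
    (h3' : l * b ≤ z.im + s' * g.im) (h4' : z.im + s' * g.im ≤ (l + 1) * b) :
    Fo a b (z + s' • g) = Fo a b (z + s • g) + (s' - s) • dv g k l := by
  apply Complex.ext
  · simp only [Fo, dv, re_line, Complex.add_re, Complex.real_smul, Complex.mul_re,
      Complex.ofReal_re, Complex.ofReal_im, zero_mul, sub_zero]
    rw [fo_lin ha h1 h2 h1' h2']
    ring
  · simp only [Fo, dv, im_line, Complex.add_im, Complex.real_smul, Complex.mul_im,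
      Complex.ofReal_re, Complex.ofReal_im, zero_mul, add_zero]
    rw [fo_lin hb h3 h4 h3' h4']
    ring

section

variable {a b v α : ℝ} (hSD : S_SD) (hok : Ok a b v α)

include hSD hok in
lemma int_table {w : ℂ} (h1 : -a < w.re) (h2 : w.re < 0) (h3 : -b < w.im) (h4 : w.im < 0)
    (h5 : w.re * Real.sin α + w.im * Real.cos α < -v) : w ∈ interior (Tb a b v α) := by
  rw [(hSD a b v α hok).1]
  intro j
  fin_cases j <;> simp [nS, oS, dt] <;> nlinarith

include hSD hok in
lemma table_int {w : ℂ} (h : w ∈ interior (Tb a b v α)) :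
    -a < w.re ∧ w.re < 0 ∧ -b < w.im ∧ w.im < 0 := by
  rw [(hSD a b v α hok).1] at h
  have h0 := h 0
  have h1 := h 1
  have h2 := h 2
  have h4 := h 4
  simp [nS, oS, dt] at h0 h1 h2 h4
  exact ⟨by linarith, h2, by linarith, h4⟩

include hSD hok in
/-- a point of the left or right side -/
lemma side_re {m : ℤ} {y : ℝ} (h3 : -b < y) (h4 : y < 0)
    (h5 : (if Odd m then -a else 0) * Real.sin α + y * Real.cos α < -v) :
    SidePt (Tb a b v α) ⟨if Odd m then -a else 0, y⟩ (if Odd m then -1 else 1) := by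
  have ha : 0 < a := by have := hok.1; linarith
  split_ifs at h5 ⊢ with hm
  · apply (hSD a b v α hok).2.1 _ 0
    · simp [nS, oS, dt]
    · intro k hk
      fin_cases k <;> simp [nS, oS, dt] at hk ⊢ <;> nlinarith
  · apply (hSD a b v α hok).2.1 _ 2
    · simp [nS, oS, dt]
    · intro k hk
      fin_cases k <;> simp [nS, oS, dt] at hk ⊢ <;> nlinarith

include hSD hok in
/-- a point of the bottom or top side -/
lemma side_im {m : ℤ} {x : ℝ} (h3 : -a < x) (h4 : x < 0)
    (h5 : x * Real.sin α + (if Odd m then -b else 0) * Real.cos α < -v) :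
    SidePt (Tb a b v α) ⟨x, if Odd m then -b else 0⟩ (if Odd m then -Complex.I else Complex.I) := by
  have hb : 0 < b := by have := hok.2.2.1; linarith
  split_ifs at h5 ⊢ with hm
  · apply (hSD a b v α hok).2.1 _ 1
    · simp [nS, oS, dt]
    · intro k hk
      fin_cases k <;> simp [nS, oS, dt] at hk ⊢ <;> nlinarith
  · apply (hSD a b v α hok).2.1 _ 4
    · simp [nS, oS, dt]
    · intro k hk
      fin_cases k <;> simp [nS, oS, dt] at hk ⊢ <;> nlinarith

include hSD hok in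
/-- the folded point of a point in an open cell -/
lemma Fo_int {x y : ℝ} {k l : ℤ} (h1 : k * a < x) (h2 : x < (k + 1) * a) (h3 : l * b < y)
    (h4 : y < (l + 1) * b) (h5 : fo a x * Real.sin α + fo b y * Real.cos α < -v) :
    (⟨fo a x, fo b y⟩ : ℂ) ∈ interior (Tb a b v α) := by
  have ha : 0 < a := by have := hok.1; linarith
  have hb : 0 < b := by have := hok.2.2.1; linarith
  have h6 := fo_int ha h1 h2
  have h7 := fo_int hb h3 h4
  exact int_table hSD hok h6.1 h6.2 h7.1 h7.2 h5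

include hSD hok in
lemma Fo_int' {z g : ℂ} {s : ℝ} {k l : ℤ} (h1 : k * a < z.re + s * g.re ∧ z.re + s * g.re < (k + 1) * a)
    (h3 : l * b < z.im + s * g.im ∧ z.im + s * g.im < (l + 1) * b)
    (h5 : fo a (z.re + s * g.re) * Real.sin α + fo b (z.im + s * g.im) * Real.cos α < -v) :
    Fo a b (z + s • g) ∈ interior (Tb a b v α) := by
  unfold Fo
  rw [re_line, im_line]
  exact Fo_int hSD hok h1.1 h1.2 h3.1 h3.2 h5

include hSD hok in
lemma orb_start {z g : ℂ} {k l : ℤ} {s1 s2 : ℝ} (h12 : s1 ≤ s2)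
    (hre : ∀ s ∈ Icc s1 s2, k * a < z.re + s * g.re ∧ z.re + s * g.re < (k + 1) * a)
    (him : ∀ s ∈ Icc s1 s2, l * b < z.im + s * g.im ∧ z.im + s * g.im < (l + 1) * b)
    (hcut : ∀ s ∈ Icc s1 s2,
      fo a (z.re + s * g.re) * Real.sin α + fo b (z.im + s * g.im) * Real.cos α < -v) :
    Orb (Tb a b v α) (Fo a b (z + s1 • g)) (dv g k l) (s2 - s1) (Fo a b (z + s2 • g)) (dv g k l) := by
  have ha : 0 < a := by have := hok.1; linarith
  have hb : 0 < b := by have := hok.2.2.1; linarith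
  have hlin : ∀ s ∈ Icc s1 s2, Fo a b (z + s • g) = Fo a b (z + s1 • g) + (s - s1) • dv g k l := by
    intro s hs
    have h1 := hre s1 ⟨le_rfl, h12⟩
    have h2 := him s1 ⟨le_rfl, h12⟩
    have h3 := hre s hs
    have h4 := him s hs
    exact Fo_lin ha hb h1.1.le h1.2.le h2.1.le h2.2.le h3.1.le h3.2.le h4.1.le h4.2.le
  rw [hlin s2 ⟨h12, le_rfl⟩]
  refine Orb.start (s2 - s1) (by linarith) fun s hs => ?_
  have hs' : s1 + s ∈ Icc s1 s2 := ⟨by linarith [hs.1], by linarith [hs.2]⟩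
  have h5 := hlin (s1 + s) hs'
  rw [add_sub_cancel_left] at h5
  rw [← h5]
  exact Fo_int' hSD hok (hre _ hs') (him _ hs') (hcut _ hs')

lemma sg_opp {k1 k2 m : ℤ} (h : (k1 = m - 1 ∧ k2 = m) ∨ (k1 = m ∧ k2 = m - 1)) :
    sg k2 = -sg k1 := by
  have h1 : Odd (m - 1) ↔ ¬ Odd m := by
    rw [Int.not_odd_iff_even, Int.odd_iff, Int.even_iff]
    omega
  rcases h with ⟨rfl, rfl⟩ | ⟨rfl, rfl⟩
  · unfold sg
    by_cases h2 : Odd k2
    · rw [if_pos h2, if_neg (by rw [h1]; simpa using h2)]; norm_num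
    · rw [if_neg h2, if_pos (by rw [h1]; exact h2)]
  · unfold sg
    by_cases h2 : Odd k1
    · rw [if_pos h2, if_neg (by rw [h1]; simpa using h2)]
    · rw [if_neg h2, if_pos (by rw [h1]; exact h2)]; norm_num

include hSD hok in
lemma orb_bounce_re {z g : ℂ} {k1 k2 l m : ℤ} {s1 s s2 : ℝ} (h1 : s1 < s) (h2 : s < s2)
    (hre1 : ∀ r ∈ Ico s1 s, k1 * a < z.re + r * g.re ∧ z.re + r * g.re < (k1 + 1) * a)
    (hre2 : ∀ r ∈ Ioc s s2, k2 * a < z.re + r * g.re ∧ z.re + r * g.re < (k2 + 1) * a)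
    (hm : z.re + s * g.re = m * a) (hk : (k1 = m - 1 ∧ k2 = m) ∨ (k1 = m ∧ k2 = m - 1))
    (him : ∀ r ∈ Icc s1 s2, l * b < z.im + r * g.im ∧ z.im + r * g.im < (l + 1) * b)
    (hcut : ∀ r ∈ Icc s1 s2,
      fo a (z.re + r * g.re) * Real.sin α + fo b (z.im + r * g.im) * Real.cos α < -v) :
    Orb (Tb a b v α) (Fo a b (z + s1 • g)) (dv g k1 l) (s2 - s1) (Fo a b (z + s2 • g))
      (dv g k2 l) := by
  have ha : 0 < a := by have := hok.1; linarith
  have hb : 0 < b := by have := hok.2.2.1; linarith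
  have hk1 : k1 * a ≤ m * a ∧ m * a ≤ (k1 + 1) * a := by
    rcases hk with ⟨rfl, rfl⟩ | ⟨rfl, rfl⟩ <;> push_cast <;> constructor <;> nlinarith
  have hk2 : k2 * a ≤ m * a ∧ m * a ≤ (k2 + 1) * a := by
    rcases hk with ⟨rfl, rfl⟩ | ⟨rfl, rfl⟩ <;> push_cast <;> constructor <;> nlinarith
  have hsI : s ∈ Icc s1 s2 := ⟨h1.le, h2.le⟩
  have hlin1 : ∀ r ∈ Icc s1 s, Fo a b (z + r • g) = Fo a b (z + s1 • g) + (r - s1) • dv g k1 l := by
    intro r hr
    have h3 := hre1 s1 ⟨le_rfl, h1⟩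
    have h4 := him s1 ⟨le_rfl, by linarith⟩
    have h5 := him r ⟨hr.1, by linarith [hr.2]⟩
    have h6 : k1 * a ≤ z.re + r * g.re ∧ z.re + r * g.re ≤ (k1 + 1) * a := by
      rcases lt_or_eq_of_le hr.2 with h7 | h7
      · have := hre1 r ⟨hr.1, h7⟩
        exact ⟨this.1.le, this.2.le⟩
      · rw [h7, hm]; exact hk1
    exact Fo_lin ha hb h3.1.le h3.2.le h4.1.le h4.2.le h6.1 h6.2 h5.1.le h5.2.le
  have hlin2 : ∀ r ∈ Icc s s2, Fo a b (z + r • g) = Fo a b (z + s • g) + (r - s) • dv g k2 l := by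
    intro r hr
    have h4 := him s hsI
    have h5 := him r ⟨by linarith [hr.1], hr.2⟩
    have h6 : k2 * a ≤ z.re + r * g.re ∧ z.re + r * g.re ≤ (k2 + 1) * a := by
      rcases lt_or_eq_of_le hr.1 with h7 | h7
      · have := hre2 r ⟨h7, hr.2⟩
        exact ⟨this.1.le, this.2.le⟩
      · rw [← h7, hm]; exact hk2
    exact Fo_lin ha hb (by rw [hm]; exact hk2.1) (by rw [hm]; exact hk2.2) h4.1.le h4.2.le h6.1 h6.2
      h5.1.le h5.2.le
  set n : ℂ := if Odd m then -1 else 1 with hn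
  have hrf : rf n (dv g k1 l) = dv g k2 l := by
    have h3 := sg_opp hk
    apply Complex.ext
    · rw [hn]
      split_ifs <;> simp [rf, dv, dt, h3] <;> ring
    · rw [hn]
      split_ifs <;> simp [rf, dv, dt]
  have h0 : Orb (Tb a b v α) (Fo a b (z + s1 • g)) (dv g k1 l) 0 (Fo a b (z + s1 • g)) (dv g k1 l) := by
    have h3 := Orb.start (P := Tb a b v α) (x := Fo a b (z + s1 • g)) (e := dv g k1 l) 0 le_rfl
      (fun r hr => by
        have hr0 : r = 0 := le_antisymm hr.2 hr.1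
        rw [hr0, zero_smul, add_zero]
        exact Fo_int' hSD hok (hre1 s1 ⟨le_rfl, h1⟩) (him s1 ⟨le_rfl, by linarith⟩)
          (hcut s1 ⟨le_rfl, by linarith⟩))
    rwa [zero_smul, add_zero] at h3
  have hs' := hlin1 s ⟨h1.le, le_rfl⟩
  have hb' := Orb.bounce (P := Tb a b v α) 0 (s - s1) (s2 - s) _ _ n h0 (by linarith) (by linarith)
    (fun r hr => by
      have hr' : s1 + r ∈ Ico s1 s := ⟨by linarith [hr.1], by linarith [hr.2]⟩
      have h5 := hlin1 (s1 + r) ⟨hr'.1, hr'.2.le⟩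
      rw [add_sub_cancel_left] at h5
      rw [← h5]
      exact Fo_int' hSD hok (hre1 _ hr') (him _ ⟨hr'.1, by linarith [hr'.2]⟩)
        (hcut _ ⟨hr'.1, by linarith [hr'.2]⟩))
    (by
      rw [← hs']
      unfold Fo
      rw [re_line, im_line, hm, fo_grid m ha]
      have h6 := fo_int hb (him s hsI).1 (him s hsI).2
      have h7 := hcut s hsI
      rw [hm, fo_grid m ha] at h7
      exact side_re hSD hok h6.1 h6.2 h7)
    (fun r hr => by
      rw [hrf, ← hs']
      have hr' : s + r ∈ Ioc s s2 := ⟨by linarith [hr.1], by linarith [hr.2]⟩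
      have h5 := hlin2 (s + r) ⟨hr'.1.le, hr'.2⟩
      rw [add_sub_cancel_left] at h5
      rw [← h5]
      exact Fo_int' hSD hok (hre2 _ hr') (him _ ⟨by linarith [hr'.1], hr'.2⟩)
        (hcut _ ⟨by linarith [hr'.1], hr'.2⟩))
  rw [hrf, ← hs', ← hlin2 s2 ⟨h2.le, le_rfl⟩] at hb'
  have h9 : 0 + (s - s1) + (s2 - s) = s2 - s1 := by ring
  rwa [h9] at hb'

include hSD hok in
lemma orb_bounce_im {z g : ℂ} {k l1 l2 m : ℤ} {s1 s s2 : ℝ} (h1 : s1 < s) (h2 : s < s2)
    (him1 : ∀ r ∈ Ico s1 s, l1 * b < z.im + r * g.im ∧ z.im + r * g.im < (l1 + 1) * b)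
    (him2 : ∀ r ∈ Ioc s s2, l2 * b < z.im + r * g.im ∧ z.im + r * g.im < (l2 + 1) * b)
    (hm : z.im + s * g.im = m * b) (hl : (l1 = m - 1 ∧ l2 = m) ∨ (l1 = m ∧ l2 = m - 1))
    (hre : ∀ r ∈ Icc s1 s2, k * a < z.re + r * g.re ∧ z.re + r * g.re < (k + 1) * a)
    (hcut : ∀ r ∈ Icc s1 s2,
      fo a (z.re + r * g.re) * Real.sin α + fo b (z.im + r * g.im) * Real.cos α < -v) :
    Orb (Tb a b v α) (Fo a b (z + s1 • g)) (dv g k l1) (s2 - s1) (Fo a b (z + s2 • g))
      (dv g k l2) := by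
  have ha : 0 < a := by have := hok.1; linarith
  have hb : 0 < b := by have := hok.2.2.1; linarith
  have hl1 : l1 * b ≤ m * b ∧ m * b ≤ (l1 + 1) * b := by
    rcases hl with ⟨rfl, rfl⟩ | ⟨rfl, rfl⟩ <;> push_cast <;> constructor <;> nlinarith
  have hl2 : l2 * b ≤ m * b ∧ m * b ≤ (l2 + 1) * b := by
    rcases hl with ⟨rfl, rfl⟩ | ⟨rfl, rfl⟩ <;> push_cast <;> constructor <;> nlinarith
  have hsI : s ∈ Icc s1 s2 := ⟨h1.le, h2.le⟩
  have hlin1 : ∀ r ∈ Icc s1 s, Fo a b (z + r • g) = Fo a b (z + s1 • g) + (r - s1) • dv g k l1 := by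
    intro r hr
    have h3 := him1 s1 ⟨le_rfl, h1⟩
    have h4 := hre s1 ⟨le_rfl, by linarith⟩
    have h5 := hre r ⟨hr.1, by linarith [hr.2]⟩
    have h6 : l1 * b ≤ z.im + r * g.im ∧ z.im + r * g.im ≤ (l1 + 1) * b := by
      rcases lt_or_eq_of_le hr.2 with h7 | h7
      · have := him1 r ⟨hr.1, h7⟩
        exact ⟨this.1.le, this.2.le⟩
      · rw [h7, hm]; exact hl1
    exact Fo_lin ha hb h4.1.le h4.2.le h3.1.le h3.2.le h5.1.le h5.2.le h6.1 h6.2
  have hlin2 : ∀ r ∈ Icc s s2, Fo a b (z + r • g) = Fo a b (z + s • g) + (r - s) • dv g k l2 := by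
    intro r hr
    have h4 := hre s hsI
    have h5 := hre r ⟨by linarith [hr.1], hr.2⟩
    have h6 : l2 * b ≤ z.im + r * g.im ∧ z.im + r * g.im ≤ (l2 + 1) * b := by
      rcases lt_or_eq_of_le hr.1 with h7 | h7
      · have := him2 r ⟨h7, hr.2⟩
        exact ⟨this.1.le, this.2.le⟩
      · rw [← h7, hm]; exact hl2
    exact Fo_lin ha hb h4.1.le h4.2.le (by rw [hm]; exact hl2.1) (by rw [hm]; exact hl2.2)
      h5.1.le h5.2.le h6.1 h6.2
  set n : ℂ := if Odd m then -Complex.I else Complex.I with hn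
  have hrf : rf n (dv g k l1) = dv g k l2 := by
    have h3 := sg_opp hl
    apply Complex.ext
    · rw [hn]
      split_ifs <;> simp [rf, dv, dt]
    · rw [hn]
      split_ifs <;> simp [rf, dv, dt, h3] <;> ring
  have h0 : Orb (Tb a b v α) (Fo a b (z + s1 • g)) (dv g k l1) 0 (Fo a b (z + s1 • g)) (dv g k l1) := by
    have h3 := Orb.start (P := Tb a b v α) (x := Fo a b (z + s1 • g)) (e := dv g k l1) 0 le_rfl
      (fun r hr => by
        have hr0 : r = 0 := le_antisymm hr.2 hr.1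
        rw [hr0, zero_smul, add_zero]
        exact Fo_int' hSD hok (hre s1 ⟨le_rfl, by linarith⟩) (him1 s1 ⟨le_rfl, h1⟩)
          (hcut s1 ⟨le_rfl, by linarith⟩))
    rwa [zero_smul, add_zero] at h3
  have hs' := hlin1 s ⟨h1.le, le_rfl⟩
  have hb' := Orb.bounce (P := Tb a b v α) 0 (s - s1) (s2 - s) _ _ n h0 (by linarith) (by linarith)
    (fun r hr => by
      have hr' : s1 + r ∈ Ico s1 s := ⟨by linarith [hr.1], by linarith [hr.2]⟩
      have h5 := hlin1 (s1 + r) ⟨hr'.1, hr'.2.le⟩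
      rw [add_sub_cancel_left] at h5
      rw [← h5]
      exact Fo_int' hSD hok (hre _ ⟨hr'.1, by linarith [hr'.2]⟩) (him1 _ hr')
        (hcut _ ⟨hr'.1, by linarith [hr'.2]⟩))
    (by
      rw [← hs']
      unfold Fo
      rw [re_line, im_line, hm, fo_grid m hb]
      have h6 := fo_int ha (hre s hsI).1 (hre s hsI).2
      have h7 := hcut s hsI
      rw [hm, fo_grid m hb] at h7
      exact side_im hSD hok h6.1 h6.2 h7)
    (fun r hr => by
      rw [hrf, ← hs']
      have hr' : s + r ∈ Ioc s s2 := ⟨by linarith [hr.1], by linarith [hr.2]⟩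
      have h5 := hlin2 (s + r) ⟨hr'.1.le, hr'.2⟩
      rw [add_sub_cancel_left] at h5
      rw [← h5]
      exact Fo_int' hSD hok (hre _ ⟨by linarith [hr'.1], hr'.2⟩) (him2 _ hr')
        (hcut _ ⟨by linarith [hr'.1], hr'.2⟩))
  rw [hrf, ← hs', ← hlin2 s2 ⟨h2.le, le_rfl⟩] at hb'
  have h9 : 0 + (s - s1) + (s2 - s) = s2 - s1 := by ring
  rwa [h9] at hb'

end

/-- the direction at the time `s` -/
noncomputable def D (a b : ℝ) (z g : ℂ) (s : ℝ) : ℂ :=
  dv g ⌊(z.re + s * g.re) / a⌋ ⌊(z.im + s * g.im) / b⌋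

/-- off the grid lines -/
def Off (a b : ℝ) (z g : ℂ) (s : ℝ) : Prop :=
  (∀ k : ℤ, z.re + s * g.re ≠ k * a) ∧ ∀ k : ℤ, z.im + s * g.im ≠ k * b

lemma off_cell {a b : ℝ} (ha : 0 < a) (hb : 0 < b) {z g : ℂ} {s : ℝ} {k l : ℤ}
    (h1 : k * a < z.re + s * g.re ∧ z.re + s * g.re < (k + 1) * a)
    (h3 : l * b < z.im + s * g.im ∧ z.im + s * g.im < (l + 1) * b) : Off a b z g s := by
  constructor
  · intro m hm
    rw [hm] at h1
    have h4 : (k : ℝ) < m := lt_of_mul_lt_mul_right h1.1 ha.le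
    have h5 : (m : ℝ) < k + 1 := lt_of_mul_lt_mul_right h1.2 ha.le
    have h6 : k < m := by exact_mod_cast h4
    have h7 : m < k + 1 := by exact_mod_cast h5
    omega
  · intro m hm
    rw [hm] at h3
    have h4 : (l : ℝ) < m := lt_of_mul_lt_mul_right h3.1 hb.le
    have h5 : (m : ℝ) < l + 1 := lt_of_mul_lt_mul_right h3.2 hb.le
    have h6 : l < m := by exact_mod_cast h4
    have h7 : m < l + 1 := by exact_mod_cast h5
    omega

/-- the local statement -/
lemma local_orb {a b v α t : ℝ} (hSD : S_SD) (hok : Ok a b v α) {z g : ℂ} (hg1 : g.re ≠ 0)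
    (hg2 : g.im ≠ 0)
    (hcut : ∀ s ∈ Icc 0 t,
      fo a (z.re + s * g.re) * Real.sin α + fo b (z.im + s * g.im) * Real.cos α < -v)
    (s : ℝ) (hs : ¬ ((∃ k : ℤ, z.re + s * g.re = k * a) ∧ ∃ k : ℤ, z.im + s * g.im = k * b)) :
    ∃ δ : ℝ, 0 < δ ∧ (∀ r, s < r → r < s + δ → Off a b z g r) ∧
      ∀ s1 s2 : ℝ, 0 ≤ s1 → s2 ≤ t → s - δ < s1 → s1 < s2 → s2 < s + δ → Off a b z g s1 →
        Off a b z g s2 →
        Orb (Tb a b v α) (Fo a b (z + s1 • g)) (D a b z g s1) (s2 - s1) (Fo a b (z + s2 • g))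
          (D a b z g s2) := by
  have ha : 0 < a := by have := hok.1; linarith
  have hb : 0 < b := by have := hok.2.2.1; linarith
  obtain ⟨δ1, hδ1, k1, k2, A1, A2, A3⟩ := local_coord (x0 := z.re) (s := s) ha hg1
  obtain ⟨δ2, hδ2, l1, l2, B1, B2, B3⟩ := local_coord (x0 := z.im) (s := s) hb hg2
  refine ⟨min δ1 δ2, lt_min hδ1 hδ2, ?_, ?_⟩
  · intro r hr1 hr2
    have h1 := min_le_left δ1 δ2
    have h2 := min_le_right δ1 δ2
    exact off_cell ha hb (A2 r hr1 (by linarith)) (B2 r hr1 (by linarith))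
  · intro s1 s2 h0 ht hs1 h12 hs2 hoff1 hoff2
    have hd1 := min_le_left δ1 δ2
    have hd2 := min_le_right δ1 δ2
    have hcut' : ∀ r ∈ Icc s1 s2,
        fo a (z.re + r * g.re) * Real.sin α + fo b (z.im + r * g.im) * Real.cos α < -v :=
      fun r hr => hcut r ⟨by linarith [hr.1], by linarith [hr.2]⟩
    -- left of `s`, right of `s`
    have hleft : s2 < s → Orb (Tb a b v α) (Fo a b (z + s1 • g)) (D a b z g s1) (s2 - s1)
        (Fo a b (z + s2 • g)) (D a b z g s2) := by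
      intro h3
      have hre : ∀ r ∈ Icc s1 s2, k1 * a < z.re + r * g.re ∧ z.re + r * g.re < (k1 + 1) * a :=
        fun r hr => A1 r (by linarith [hr.1]) (by linarith [hr.2])
      have him : ∀ r ∈ Icc s1 s2, l1 * b < z.im + r * g.im ∧ z.im + r * g.im < (l1 + 1) * b :=
        fun r hr => B1 r (by linarith [hr.1]) (by linarith [hr.2])
      have e1 : s1 ∈ Icc s1 s2 := ⟨le_rfl, h12.le⟩
      have e2 : s2 ∈ Icc s1 s2 := ⟨h12.le, le_rfl⟩
      unfold D
      rw [floor_cell ha (hre _ e1).1 (hre _ e1).2, floor_cell ha (hre _ e2).1 (hre _ e2).2,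
        floor_cell hb (him _ e1).1 (him _ e1).2, floor_cell hb (him _ e2).1 (him _ e2).2]
      exact orb_start hSD hok h12.le hre him hcut'
    have hright : s < s1 → Orb (Tb a b v α) (Fo a b (z + s1 • g)) (D a b z g s1) (s2 - s1)
        (Fo a b (z + s2 • g)) (D a b z g s2) := by
      intro h3
      have hre : ∀ r ∈ Icc s1 s2, k2 * a < z.re + r * g.re ∧ z.re + r * g.re < (k2 + 1) * a :=
        fun r hr => A2 r (by linarith [hr.1]) (by linarith [hr.2])
      have him : ∀ r ∈ Icc s1 s2, l2 * b < z.im + r * g.im ∧ z.im + r * g.im < (l2 + 1) * b :=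
        fun r hr => B2 r (by linarith [hr.1]) (by linarith [hr.2])
      have e1 : s1 ∈ Icc s1 s2 := ⟨le_rfl, h12.le⟩
      have e2 : s2 ∈ Icc s1 s2 := ⟨h12.le, le_rfl⟩
      unfold D
      rw [floor_cell ha (hre _ e1).1 (hre _ e1).2, floor_cell ha (hre _ e2).1 (hre _ e2).2,
        floor_cell hb (him _ e1).1 (him _ e1).2, floor_cell hb (him _ e2).1 (him _ e2).2]
      exact orb_start hSD hok h12.le hre him hcut'
    -- all the times of the neighbourhood, one coordinate off the grid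
    have reA : (k1 = k2 ∧ k1 * a < z.re + s * g.re ∧ z.re + s * g.re < (k1 + 1) * a) →
        ∀ r ∈ Icc s1 s2, k1 * a < z.re + r * g.re ∧ z.re + r * g.re < (k1 + 1) * a := by
      rintro ⟨h3, h4⟩ r hr
      rcases lt_trichotomy r s with h5 | h5 | h5
      · exact A1 r (by linarith [hr.1]) h5
      · rw [h5]; exact h4
      · rw [h3]; exact A2 r h5 (by linarith [hr.2])
    have imA : (l1 = l2 ∧ l1 * b < z.im + s * g.im ∧ z.im + s * g.im < (l1 + 1) * b) →
        ∀ r ∈ Icc s1 s2, l1 * b < z.im + r * g.im ∧ z.im + r * g.im < (l1 + 1) * b := by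
      rintro ⟨h3, h4⟩ r hr
      rcases lt_trichotomy r s with h5 | h5 | h5
      · exact B1 r (by linarith [hr.1]) h5
      · rw [h5]; exact h4
      · rw [h3]; exact B2 r h5 (by linarith [hr.2])
    have e1 : s1 ∈ Icc s1 s2 := ⟨le_rfl, h12.le⟩
    have e2 : s2 ∈ Icc s1 s2 := ⟨h12.le, le_rfl⟩
    rcases A3 with A3 | ⟨m, hm, hk⟩
    · rcases B3 with B3 | ⟨m, hm, hl⟩
      · have hre := reA A3
        have him := imA B3
        unfold D
        rw [floor_cell ha (hre _ e1).1 (hre _ e1).2, floor_cell ha (hre _ e2).1 (hre _ e2).2,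
          floor_cell hb (him _ e1).1 (him _ e1).2, floor_cell hb (him _ e2).1 (him _ e2).2]
        exact orb_start hSD hok h12.le hre him hcut'
      · have hre := reA A3
        rcases lt_trichotomy s2 s with h5 | h5 | h5
        · exact hleft h5
        · exact absurd (by rw [h5]; exact hm) (hoff2.2 m)
        rcases lt_trichotomy s s1 with h6 | h6 | h6
        · exact hright h6
        · exact absurd (by rw [← h6]; exact hm) (hoff1.2 m)
        have him1 : ∀ r ∈ Ico s1 s, l1 * b < z.im + r * g.im ∧ z.im + r * g.im < (l1 + 1) * b :=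
          fun r hr => B1 r (by linarith [hr.1]) hr.2
        have him2 : ∀ r ∈ Ioc s s2, l2 * b < z.im + r * g.im ∧ z.im + r * g.im < (l2 + 1) * b :=
          fun r hr => B2 r hr.1 (by linarith [hr.2])
        unfold D
        rw [floor_cell ha (hre _ e1).1 (hre _ e1).2, floor_cell ha (hre _ e2).1 (hre _ e2).2,
          floor_cell hb (him1 _ ⟨le_rfl, h6⟩).1 (him1 _ ⟨le_rfl, h6⟩).2,
          floor_cell hb (him2 _ ⟨h5, le_rfl⟩).1 (him2 _ ⟨h5, le_rfl⟩).2]
        exact orb_bounce_im hSD hok h6 h5 him1 him2 hm hl hre hcut'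
    · rcases B3 with B3 | ⟨m', hm', hl⟩
      · have him := imA B3
        rcases lt_trichotomy s2 s with h5 | h5 | h5
        · exact hleft h5
        · exact absurd (by rw [h5]; exact hm) (hoff2.1 m)
        rcases lt_trichotomy s s1 with h6 | h6 | h6
        · exact hright h6
        · exact absurd (by rw [← h6]; exact hm) (hoff1.1 m)
        have hre1 : ∀ r ∈ Ico s1 s, k1 * a < z.re + r * g.re ∧ z.re + r * g.re < (k1 + 1) * a :=
          fun r hr => A1 r (by linarith [hr.1]) hr.2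
        have hre2 : ∀ r ∈ Ioc s s2, k2 * a < z.re + r * g.re ∧ z.re + r * g.re < (k2 + 1) * a :=
          fun r hr => A2 r hr.1 (by linarith [hr.2])
        unfold D
        rw [floor_cell hb (him _ e1).1 (him _ e1).2, floor_cell hb (him _ e2).1 (him _ e2).2,
          floor_cell ha (hre1 _ ⟨le_rfl, h6⟩).1 (hre1 _ ⟨le_rfl, h6⟩).2,
          floor_cell ha (hre2 _ ⟨h5, le_rfl⟩).1 (hre2 _ ⟨h5, le_rfl⟩).2]
        exact orb_bounce_re hSD hok h6 h5 hre1 hre2 hm hk him hcut'
      · exact absurd ⟨⟨m, hm⟩, ⟨m', hm'⟩⟩ hs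

theorem t_UN : S_TR → S_SD → S_UN := by
  intro hTR hSD a b v α t z g hok hg hg1 hg2 ht hz hcut hgrid hoff1 hoff2
  have ha : 0 < a := by have := hok.1; linarith
  have hb : 0 < b := by have := hok.2.2.1; linarith
  simp only [re_line, im_line] at hcut hgrid hoff1 hoff2 ⊢
  have hofft : Off a b z g t := ⟨hoff1, hoff2⟩
  have hzi := table_int hSD hok hz
  have c1 : ((-1 : ℤ) : ℝ) * a < z.re + 0 * g.re ∧ z.re + 0 * g.re < (((-1 : ℤ) : ℝ) + 1) * a := by
    push_cast
    constructor <;> linarith [hzi.1, hzi.2.1]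
  have c2 : ((-1 : ℤ) : ℝ) * b < z.im + 0 * g.im ∧ z.im + 0 * g.im < (((-1 : ℤ) : ℝ) + 1) * b := by
    push_cast
    constructor <;> linarith [hzi.2.2.1, hzi.2.2.2]
  have hoff0 : Off a b z g 0 := off_cell ha hb c1 c2
  have hodd : Odd (-1 : ℤ) := ⟨-1, by norm_num⟩
  have hD0 : D a b z g 0 = g := by
    unfold D
    rw [floor_cell ha c1.1 c1.2, floor_cell hb c2.1 c2.2]
    apply Complex.ext <;> simp [dv, sg, hodd]
  have hF0 : Fo a b (z + (0 : ℝ) • g) = z := by
    have h1 := fo_cell (k := -1) (x := z.re + 0 * g.re) ha c1.1.le c1.2.le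
    have h2 := fo_cell (k := -1) (x := z.im + 0 * g.im) hb c2.1.le c2.2.le
    rw [if_pos hodd] at h1 h2
    apply Complex.ext
    · simp only [Fo]
      rw [re_line, h1]
      push_cast
      ring
    · simp only [Fo]
      rw [im_line, h2]
      push_cast
      ring
  have horb0 : Orb (Tb a b v α) z g 0 (Fo a b (z + (0 : ℝ) • g)) (D a b z g 0) := by
    rw [hD0, hF0]
    have h3 := Orb.start (P := Tb a b v α) (x := z) (e := g) 0 le_rfl
      (fun r hr => by
        have hr0 : r = 0 := le_antisymm hr.2 hr.1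
        rw [hr0, zero_smul, add_zero]
        exact hz)
    rwa [zero_smul, add_zero] at h3
  set A : Set ℝ := {s | s ∈ Icc 0 t ∧ Off a b z g s ∧
    Orb (Tb a b v α) z g s (Fo a b (z + s • g)) (D a b z g s)} with hA
  have h0A : (0 : ℝ) ∈ A := ⟨⟨le_rfl, ht⟩, hoff0, horb0⟩
  have hbdd : BddAbove A := ⟨t, fun s hs => hs.1.2⟩
  set σ := sSup A with hσ
  have hσ0 : 0 ≤ σ := le_csSup hbdd h0A
  have hσt : σ ≤ t := csSup_le ⟨0, h0A⟩ fun s hs => hs.1.2
  obtain ⟨δ, hδ, hd1, hd2⟩ := local_orb hSD hok hg1 hg2 hcut σ (hgrid σ ⟨hσ0, hσt⟩)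
  obtain ⟨s1, hs1A, hs1⟩ := exists_lt_of_lt_csSup ⟨0, h0A⟩ (show σ - δ < sSup A by linarith)
  have hs1σ : s1 ≤ σ := le_csSup hbdd hs1A
  have hmain : t ∈ A := by
    rcases lt_or_eq_of_le hσt with h1 | h1
    · exfalso
      set s2 := (σ + min (σ + δ) t) / 2 with hs2
      have h3 : σ < min (σ + δ) t := lt_min (by linarith) h1
      have h4 : σ < s2 := by linarith
      have h5 : s2 < min (σ + δ) t := by linarith
      have h6 : s2 < σ + δ := lt_of_lt_of_le h5 (min_le_left _ _)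
      have h7 : s2 < t := lt_of_lt_of_le h5 (min_le_right _ _)
      have hoff : Off a b z g s2 := hd1 s2 h4 h6
      have horb := hd2 s1 s2 hs1A.1.1 h7.le hs1 (by linarith) h6 hs1A.2.1 hoff
      have h8 := hTR _ _ _ _ _ _ _ _ _ hs1A.2.2 horb
      rw [add_sub_cancel] at h8
      have h9 : s2 ∈ A := ⟨⟨by linarith, h7.le⟩, hoff, h8⟩
      have := le_csSup hbdd h9
      linarith
    · rcases lt_or_eq_of_le hs1A.1.2 with h2 | h2
      · have horb := hd2 s1 t hs1A.1.1 le_rfl hs1 h2 (by linarith) hs1A.2.1 hofft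
        have h8 := hTR _ _ _ _ _ _ _ _ _ hs1A.2.2 horb
        rw [add_sub_cancel] at h8
        exact ⟨⟨ht, le_rfl⟩, hofft, h8⟩
      · rw [← h2]; exact hs1A
  have h10 := hmain.2.2
  unfold Fo D dv sg at h10
  rw [re_line, im_line] at h10
  exact h10

end Pool.Agent.U88.BM.UN
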